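import Pool.Agent.Helper17.Rg.Goals

/-!
# PTB: the number of bad times in the window tends to infinity (MP_70814c_an)
-/

set_option autoImplicit false

open Filter Topology Pool.Agent.Helper17.Rg

namespace Pool.Agent.Helper2.Rg

lemma di_le (a b : ℝ) : di b - |a - b| ≤ di a := by
  unfold di
  have h1 : |b - round b| ≤ |b - round a| := round_le b (round a)
  have h2 : |b - round a| ≤ |b - a| + |a - round a| := by
    have := abs_add_le (b - a) (a - round a)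
    simpa using this
  have h3 : |b - a| = |a - b| := abs_sub_comm b a
  linarith

lemma log_two_pos : 0 < Real.log 2 := Real.log_pos (by norm_num)

lemma two_rpow_gt (C2 : ℝ) (h : Real.log 6 / Real.log 2 < C2) : (6 : ℝ) < (2 : ℝ) ^ C2 := by
  have h1 : Real.log 6 < C2 * Real.log 2 := (div_lt_iff₀ log_two_pos).1 h
  have h2 : Real.log 6 < Real.log ((2 : ℝ) ^ C2) := by
    rw [Real.log_rpow (by norm_num)]; exact h1
  exact (Real.log_lt_log_iff (by norm_num) (Real.rpow_pos_of_pos (by norm_num) _)).1 h2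

lemma one_lt_of (C : ℝ) (h : Real.log 6 / Real.log 2 < C) : 1 < C := by
  have h1 : (1 : ℝ) ≤ Real.log 6 / Real.log 2 := by
    rw [le_div_iff₀ log_two_pos, one_mul]
    exact Real.log_le_log (by norm_num) (by norm_num)
  linarith

lemma tend3 (C2 : ℝ) (h : Real.log 6 / Real.log 2 < C2) (K : ℝ) :
    Tendsto (fun N : ℕ => (3 : ℝ) ^ N * (K * (2 : ℝ) ^ (-C2 * (N : ℝ)))) atTop (𝓝 0) := by
  have h6 := two_rpow_gt C2 h
  have hq : (3 : ℝ) * (2 : ℝ) ^ (-C2) < 1 := by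
    rw [Real.rpow_neg (by norm_num), ← div_eq_mul_inv, div_lt_one (by linarith)]
    linarith
  have hq0 : 0 ≤ (3 : ℝ) * (2 : ℝ) ^ (-C2) := by positivity
  have h1 := (tendsto_pow_atTop_nhds_zero_of_lt_one hq0 hq).const_mul K
  rw [mul_zero] at h1
  refine h1.congr (fun N => ?_)
  rw [Real.rpow_mul (by norm_num), Real.rpow_natCast, mul_pow]
  ring

lemma tend2 (C2 : ℝ) (h : Real.log 6 / Real.log 2 < C2) (K : ℝ) :
    Tendsto (fun N : ℕ => K * (2 : ℝ) ^ (-C2 * (N : ℝ))) atTop (𝓝 0) := by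
  have h6 := two_rpow_gt C2 h
  have hq : (2 : ℝ) ^ (-C2) < 1 := by
    rw [Real.rpow_neg (by norm_num)]
    exact inv_lt_one_of_one_lt₀ (by linarith)
  have hq0 : 0 ≤ (2 : ℝ) ^ (-C2) := by positivity
  have h1 := (tendsto_pow_atTop_nhds_zero_of_lt_one hq0 hq).const_mul K
  rw [mul_zero] at h1
  refine h1.congr (fun N => ?_)
  rw [Real.rpow_mul (by norm_num), Real.rpow_natCast]

lemma ev_floor (C : ℝ) (hC : 1 < C) (q : ℕ) : ∀ᶠ N : ℕ in atTop, N + q + 1 ≤ ⌊C * N⌋₊ := by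
  have h1 : Tendsto (fun N : ℕ => (C - 1) * (N : ℝ)) atTop atTop :=
    (tendsto_natCast_atTop_atTop).const_mul_atTop (by linarith)
  filter_upwards [h1.eventually_ge_atTop ((q : ℝ) + 1)] with N hN
  apply Nat.le_floor
  push_cast
  nlinarith

lemma inv_two_pow_le (C : ℝ) (N : ℕ) :
    (1 : ℝ) / 2 ^ (⌊C * N⌋₊ - 1) ≤ 4 * (2 : ℝ) ^ (-C * (N : ℝ)) := by
  have h1 : C * N - 2 ≤ ((⌊C * N⌋₊ - 1 : ℕ) : ℝ) := by
    have h2 : C * N < (⌊C * N⌋₊ : ℝ) + 1 := Nat.lt_floor_add_one _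
    have h3 : (⌊C * N⌋₊ : ℝ) ≤ ((⌊C * N⌋₊ - 1 : ℕ) : ℝ) + 1 := by
      have : ⌊C * N⌋₊ ≤ (⌊C * N⌋₊ - 1) + 1 := by omega
      exact_mod_cast this
    linarith
  have h4 : (2 : ℝ) ^ (C * N - 2) ≤ (2 : ℝ) ^ (⌊C * N⌋₊ - 1) := by
    rw [← Real.rpow_natCast]
    exact Real.rpow_le_rpow_of_exponent_le (by norm_num) h1
  have h5 : (0 : ℝ) < (2 : ℝ) ^ (C * N - 2) := Real.rpow_pos_of_pos (by norm_num) _
  have h6 : (1 : ℝ) / 2 ^ (⌊C * N⌋₊ - 1) ≤ 1 / (2 : ℝ) ^ (C * N - 2) :=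
    one_div_le_one_div_of_le h5 h4
  refine h6.trans (le_of_eq ?_)
  rw [one_div, ← Real.rpow_neg (by norm_num)]
  have : (-(C * N - 2) : ℝ) = 2 + (-C * N) := by ring
  rw [this, Real.rpow_add (by norm_num)]
  norm_num

theorem ptBad (h1 : Apx) (h2 : Dig) (h3 : BadRat) : PtBad := by
  intro C κ m hC hκ
  have hC1 : 1 < C := one_lt_of C hC
  set C2 : ℝ := (C + Real.log 6 / Real.log 2) / 2 with hC2def
  have hC2 : Real.log 6 / Real.log 2 < C2 := by rw [hC2def]; linarith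
  have hC2' : C2 < C := by rw [hC2def]; linarith
  set R := 2 * m + 2 * m with hR
  choose N0 D K' hD hApx using fun (p : (Fin R → ℤ) × (Fin R → Bool)) =>
    h1 R p.1 p.2 ⌈C⌉₊ C C2 4 hC hC2'
  choose hb hb0 hbr using h3
  let S : Finset ((Fin R → ℤ) × (Fin R → Bool)) :=
    (Fintype.piFinset (fun _ : Fin R => Finset.Icc (-2 : ℤ) 2)) ×ˢ Finset.univ
  have ev : ∀ᶠ N : ℕ in atTop, ∀ p ∈ S, (N0 p ≤ N) ∧ K' p * (2 : ℝ) ^ (-C2 * (N : ℝ)) < κ ∧
      (3 : ℝ) ^ N * ((3 : ℝ) ^ (m * hb (D p) (hD p)) * K' p * (2 : ℝ) ^ (-C2 * (N : ℝ))) ≤ 1 / 24 ∧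
      N + m * hb (D p) (hD p) + 1 ≤ ⌊C * N⌋₊ := by
    rw [Filter.eventually_all_finset]
    intro p _
    have e1 := eventually_ge_atTop (N0 p)
    have e2 := (tend2 C2 hC2 (K' p)).eventually_lt_const hκ
    have e3 := (tend3 C2 hC2 ((3 : ℝ) ^ (m * hb (D p) (hD p)) * K' p)).eventually_le_const
      (show (0 : ℝ) < 1 / 24 by norm_num)
    have e4 := ev_floor C hC1 (m * hb (D p) (hD p))
    filter_upwards [e1, e2, e3, e4] with N a1 a2 a3 a4
    exact ⟨a1, a2, a3, a4⟩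
  obtain ⟨N1, hN1⟩ := Filter.eventually_atTop.1 (ev.and (ev_floor C hC1 0))
  refine ⟨N1, fun N hN x hx => ?_⟩
  obtain ⟨hS, hfl⟩ := hN1 N hN
  by_contra hcon
  push Not at hcon
  set L := ⌊C * N⌋₊ - 1 with hL
  have hNL : N ≤ L := by omega
  obtain ⟨c, g, l, hc, hl, hx2, hx3⟩ := h2 m x N L hNL hcon.le
  have hp : (c, g) ∈ S := by
    simp only [S, Finset.mem_product, Fintype.mem_piFinset, Finset.mem_Icc, Finset.mem_univ,
      and_true]
    intro t
    have := abs_le.1 (hc t)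
    exact this
  obtain ⟨b1, b2, b3, b4⟩ := hS (c, g) hp
  have hLe : (1 : ℝ) / 2 ^ L ≤ 4 * (2 : ℝ) ^ (-C * (N : ℝ)) := inv_two_pow_le C N
  have hLH : L ≤ ⌈C⌉₊ * N := by
    have t1 : L ≤ ⌊C * N⌋₊ := by omega
    have t2 : (⌊C * N⌋₊ : ℝ) ≤ C * N := Nat.floor_le (by positivity)
    have t3 : C * N ≤ (⌈C⌉₊ : ℝ) * N :=
      mul_le_mul_of_nonneg_right (Nat.le_ceil C) (Nat.cast_nonneg N)
    have t4 : (L : ℝ) ≤ ((⌈C⌉₊ * N : ℕ) : ℝ) := by
      push_cast
      have : (L : ℝ) ≤ (⌊C * N⌋₊ : ℝ) := by exact_mod_cast t1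
      linarith
    exact_mod_cast t4
  obtain ⟨n, hn⟩ := hApx (c, g) N b1 x (round (2 ^ N * x)) (round (3 ^ N * x)) l
    (fun t => ⟨(hl t).1, (hl t).2.trans hLH⟩) (hx2.trans hLe) (hx3.trans hLe)
  have hni : ¬ ∃ z : ℤ, (n : ℝ) / D (c, g) = z := by
    rintro ⟨z, hz⟩
    rw [hz] at hn
    have : di x ≤ |x - z| := round_le x z
    linarith
  set q := hb (D (c, g)) (hD (c, g)) with hq
  have hq0 : 0 < q := hb0 _ _
  have hblk := hbr (D (c, g)) (hD (c, g)) n hni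
  choose kk hk1 hk2 hk3 using fun j : ℕ => hblk (N + j * q)
  have hbad : ∀ j < m, Bad x (kk j) := by
    intro j hj
    have hkle : kk j ≤ N + m * q := by
      have := hk2 j
      have h5 : (j + 1) * q ≤ m * q := Nat.mul_le_mul_right q hj
      have h6 : (j + 1) * q = j * q + q := by ring
      have h7 : kk j < N + j * q + q := this
      omega
    have h0 : 0 ≤ |x - (n : ℝ) / D (c, g)| := abs_nonneg _
    have e3 : (3 : ℝ) ^ (kk j) * |x - (n : ℝ) / D (c, g)| ≤ 1 / 24 := by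
      have f1 : (3 : ℝ) ^ (kk j) ≤ (3 : ℝ) ^ (N + m * q) :=
        pow_le_pow_right₀ (by norm_num) hkle
      calc (3 : ℝ) ^ (kk j) * |x - (n : ℝ) / D (c, g)|
          ≤ (3 : ℝ) ^ (N + m * q) * |x - (n : ℝ) / D (c, g)| :=
            mul_le_mul_of_nonneg_right f1 h0
        _ ≤ (3 : ℝ) ^ (N + m * q) * (K' (c, g) * (2 : ℝ) ^ (-C2 * (N : ℝ))) :=
            mul_le_mul_of_nonneg_left hn (by positivity)
        _ = (3 : ℝ) ^ N * ((3 : ℝ) ^ (m * q) * K' (c, g) * (2 : ℝ) ^ (-C2 * (N : ℝ))) := by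
            rw [pow_add]; ring
        _ ≤ 1 / 24 := b3
    have e2 : (2 : ℝ) ^ (kk j) * |x - (n : ℝ) / D (c, g)| ≤ 1 / 24 := by
      have f1 : (2 : ℝ) ^ (kk j) ≤ (3 : ℝ) ^ (kk j) :=
        pow_le_pow_left₀ (by norm_num) (by norm_num) _
      exact (mul_le_mul_of_nonneg_right f1 h0).trans e3
    rcases hk3 j with h | h
    · left
      have f := di_le (2 ^ (kk j) * x) (2 ^ (kk j) * ((n : ℝ) / D (c, g)))
      have f2 : |2 ^ (kk j) * x - 2 ^ (kk j) * ((n : ℝ) / D (c, g))|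
          = (2 : ℝ) ^ (kk j) * |x - (n : ℝ) / D (c, g)| := by
        rw [← mul_sub, abs_mul, abs_of_pos (by positivity : (0 : ℝ) < 2 ^ (kk j))]
      rw [f2] at f
      linarith
    · right
      have f := di_le (3 ^ (kk j) * x) (3 ^ (kk j) * ((n : ℝ) / D (c, g)))
      have f2 : |3 ^ (kk j) * x - 3 ^ (kk j) * ((n : ℝ) / D (c, g))|
          = (3 : ℝ) ^ (kk j) * |x - (n : ℝ) / D (c, g)| := by
        rw [← mul_sub, abs_mul, abs_of_pos (by positivity : (0 : ℝ) < 3 ^ (kk j))]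
      rw [f2] at f
      linarith
  have hmono : ∀ i j : ℕ, i < j → kk i < kk j := by
    intro i j hij
    have h5 : (i + 1) * q ≤ j * q := Nat.mul_le_mul_right q hij
    have h6 : (i + 1) * q = i * q + q := by ring
    have h7 : kk i < N + i * q + q := hk2 i
    have h8 : N + j * q ≤ kk j := hk1 j
    omega
  have hinj : Function.Injective kk := by
    intro i j hij
    rcases lt_trichotomy i j with h | h | h
    · exact absurd hij (hmono i j h).ne
    · exact h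
    · exact absurd hij (hmono j i h).ne'
  have hcard : (Finset.range m).card ≤ nb x N L := by
    unfold nb
    apply Finset.card_le_card_of_injOn kk
    · intro j hj
      have hj' : j < m := by simpa using hj
      simp only [Finset.coe_filter, Finset.mem_Icc, Set.mem_setOf_eq]
      refine ⟨⟨?_, ?_⟩, hbad j hj'⟩
      · have := hk1 j
        have h8 : N + j * q ≤ kk j := this
        omega
      · have h5 : (j + 1) * q ≤ m * q := Nat.mul_le_mul_right q hj'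
        have h6 : (j + 1) * q = j * q + q := by ring
        have h7 : kk j < N + j * q + q := hk2 j
        omega
    · exact hinj.injOn
  rw [Finset.card_range] at hcard
  omega

end Pool.Agent.Helper2.Rg
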